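import Pool.Agent.U26.SG.Stm3

/-!
# Project SG, package HY: hyperbolic surfaces have local limits
-/

set_option autoImplicit false
open MeasureTheory Filter Topology Complex
open scoped ContDiff ENNReal

namespace Pool.Agent.U433.SG

open Pool.Agent.W745.RW (lap TF)
open Pool.Agent.Y265.RW (sy rr)
open Pool.Agent.Y265.HY (SY FW FD)
open Pool.Agent.N661.BR (MW lin)
open Pool.Agent.N661.BH (HP mv area frames loc)
open Pool.Agent.N814.BHM
open Pool.Agent.N814.BHASM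
open Pool.Agent.U26.SG (Sym Dt S_COMP S_HY)

noncomputable section

variable {Ω : Set ℂ} {lam : ℕ → ℝ} {u : ℕ → ℂ → ℝ}

lemma E_conj (θ : ℝ) (b : ℤ) : starRingEnd ℂ (E θ ^ b) = E θ ^ (-b) := by
  have h : starRingEnd ℂ (E θ) = (E θ)⁻¹ := by
    unfold E
    rw [← Complex.exp_conj, map_mul, Complex.conj_ofReal, Complex.conj_I, mul_neg, Complex.exp_neg]
  rw [map_zpow₀, h, inv_zpow, zpow_neg]

lemma sgn_sq (a : ℤ) : ((-1 : ℂ) ^ a.natAbs) * (-1) ^ a.natAbs = 1 := by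
  rw [← mul_pow]; simp

lemma X_sym (H : Hyp Ω lam u) (n : ℕ) {p : ℂ × (ℝ × Bool)} (hp : p.1 ∈ Ω) :
    Sym fun a => X (lam n) (u n) a 0 p := by
  obtain ⟨z, θ, b⟩ := p
  have hz : z ∈ Ω := hp
  have hw : 1 / √(lam n) * ‖(0 : ℂ)‖ < 1 := by simp
  have hmv : mv (1 / √(lam n)) 0 z = z := by unfold mv; simp
  have hcj : ∀ a : ℤ, starRingEnd ℂ (FW (lam n) (u n) a z) =
      (-1) ^ a.natAbs * FW (lam n) (u n) (-a) z := by
    intro a
    have h := H.sys.cj a n z hz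
    rwa [wl_eq, wl_eq] at h
  intro a
  have h1 := hcj a
  have h2 := sgn_sq a
  cases b
  · have hx : ∀ a : ℤ, X (lam n) (u n) a 0 (z, (θ, false)) =
        (-1) ^ a.natAbs * E θ ^ (-a) * FW (lam n) (u n) (-a) z := by
      intro a
      rw [X_false hw (H.sub hz), map_zero, mul_zero, hmv]
    show X (lam n) (u n) (-a) 0 (z, (θ, false)) =
      (-1) ^ a.natAbs * starRingEnd ℂ (X (lam n) (u n) a 0 (z, (θ, false)))
    have h3 := hcj (-a)
    rw [neg_neg, Int.natAbs_neg] at h3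
    rw [hx, hx, map_mul, map_mul, map_pow, map_neg, map_one, E_conj, neg_neg, Int.natAbs_neg, h3]
    linear_combination (-((-1 : ℂ) ^ a.natAbs * E θ ^ a * FW (lam n) (u n) a z)) * h2
  · have hx : ∀ a : ℤ, X (lam n) (u n) a 0 (z, (θ, true)) = E θ ^ a * FW (lam n) (u n) a z := by
      intro a
      rw [X_true hw (H.sub hz), mul_zero, hmv]
    show X (lam n) (u n) (-a) 0 (z, (θ, true)) =
      (-1) ^ a.natAbs * starRingEnd ℂ (X (lam n) (u n) a 0 (z, (θ, true)))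
    rw [hx, hx, map_mul, E_conj, h1]
    linear_combination (-(E θ ^ (-a) * FW (lam n) (u n) (-a) z)) * h2

/-- the data of the abstract theorem -/
theorem dt (H : Hyp Ω lam u) {φ : ℕ → ℂ → ℝ} (hφ : ∀ i, Wt Ω (φ i))
    (hlim : Tendsto (fun i => ∫ z, φ i z ∂(Pz Ω)) atTop (𝓝 1)) :
    Dt (P Ω) (fun n a w p => X (lam n) (u n) a w p) (fun i p => φ i p.1) := by
  haveI := probz H
  refine ⟨probP H, fun i => ?_, fun i p => (hφ i).mem p.1, ?_, fun n a => ?_, fun i w => ?_,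
    fun n => ?_, fun i a => ?_, fun i w => ?_, fun i k c a w => ?_⟩
  · exact (hφ i).tf.1.continuous.measurable.comp measurable_fst
  · simp only [fstP H]
    exact hlim
  · exact (X_meas (H.sm n) a 0).aemeasurable
  · refine Eventually.of_forall fun n => ?_
    have h1 : Measurable fun p : ℂ × (ℝ × Bool) => φ i p.1 :=
      (hφ i).tf.1.continuous.measurable.comp measurable_fst
    exact ((Complex.measurable_ofReal.comp h1).mul (X_meas (H.sm n) 0 w)).aemeasurable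
  · have h1 : ∀ᵐ p ∂(P Ω), p.1 ∈ Ω := by
      unfold P
      exact (Measure.quasiMeasurePreserving_fst (μ := Pz Ω) (ν := Q)).ae
        (ae_Pz H.op.measurableSet)
    filter_upwards [h1] with p hp
    exact X_sym H n hp
  · refine Eventually.of_forall fun n => ?_
    exact isoInt H (hφ i) n a (by simp)
  · filter_upwards [small H w] with n hn
    exact isoInt H (hφ i) n 0 hn
  · exact iso H Pool.Agent.N87.BH.BDH Pool.Agent.N645.BH.ISOH (hφ i) c a w

/-- removing the weight -/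
lemma rem (H : Hyp Ω lam u) {φ : ℂ → ℝ} (hφ : Wt Ω φ) (n : ℕ) {k : ℕ} (c w : Fin k → ℂ) :
    ‖(∫ p, (φ p.1 : ℂ) * ex (lam n) (u n) c w p ∂(P Ω)) -
      ∫ p, ex (lam n) (u n) c w p ∂(P Ω)‖ ≤ 1 - ∫ p, φ p.1 ∂(P Ω) := by
  haveI := probP H
  have hm := ex_meas (H.sm n) (lam := lam n) c w
  have hi : Integrable (ex (lam n) (u n) c w) (P Ω) :=
    Integrable.of_bound hm.aestronglyMeasurable 1
      (Eventually.of_forall fun p => (ex_norm _ _ c w p).le)
  have hφm : Measurable fun p : ℂ × (ℝ × Bool) => φ p.1 :=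
    hφ.tf.1.continuous.measurable.comp measurable_fst
  have hφi : Integrable (fun p : ℂ × (ℝ × Bool) => φ p.1) (P Ω) :=
    Integrable.of_bound hφm.aestronglyMeasurable 1 (Eventually.of_forall fun p => by
      rw [Real.norm_eq_abs, abs_of_nonneg (hφ.mem _).1]
      exact (hφ.mem _).2)
  have hi2 : Integrable (fun p => (φ p.1 : ℂ) * ex (lam n) (u n) c w p) (P Ω) :=
    Integrable.of_bound ((Complex.measurable_ofReal.comp hφm).mul hm).aestronglyMeasurable 1
      (Eventually.of_forall fun p => by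
        rw [norm_mul, ex_norm, mul_one, Complex.norm_real, Real.norm_eq_abs,
          abs_of_nonneg (hφ.mem _).1]
        exact (hφ.mem _).2)
  rw [← integral_sub hi2 hi]
  refine (norm_integral_le_integral_norm _).trans (le_of_eq ?_)
  have h4 : ∀ p : ℂ × (ℝ × Bool), ‖(φ p.1 : ℂ) * ex (lam n) (u n) c w p -
      ex (lam n) (u n) c w p‖ = 1 - φ p.1 := by
    intro p
    have : (φ p.1 : ℂ) * ex (lam n) (u n) c w p - ex (lam n) (u n) c w p =
        ((φ p.1 - 1 : ℝ) : ℂ) * ex (lam n) (u n) c w p := by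
      push_cast
      ring
    rw [this, norm_mul, ex_norm, mul_one, Complex.norm_real, Real.norm_eq_abs,
      abs_of_nonpos (by linarith [(hφ.mem p.1).2])]
    ring
  simp only [h4]
  rw [integral_sub (integrable_const _) hφi]
  simp

theorem t_HY : S_COMP → S_HY := by
  intro hC Ω hΩ hHP hne hint lam hpos hlam u hu heq hqe
  have H : Hyp Ω lam u := ⟨hΩ, hHP, hne, hint, hpos, hlam, hu, heq, hqe⟩
  haveI := probP H
  obtain ⟨φ, hφ, hlim⟩ := exists_wt H
  obtain ⟨σ, μ, hσ, hμ, hcv⟩ := hC _ _ _ _ _ (dt H hφ hlim)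
  refine ⟨σ, μ, hσ, hμ, ?_⟩
  intro k w t
  have hlimP : Tendsto (fun i => ∫ p, φ i p.1 ∂(P Ω)) atTop (𝓝 1) := by
    simp only [fstP H]
    exact hlim
  rw [Metric.tendsto_nhds]
  intro ε hε
  have hi : ∃ i, 1 - ε / 4 < ∫ p, φ i p.1 ∂(P Ω) :=
    (hlimP.eventually (lt_mem_nhds (by linarith))).exists
  obtain ⟨i, hi⟩ := hi
  have hsm : ∀ᶠ n in atTop, ∀ j, 1 / √(lam (σ n)) * ‖w j‖ < 1 :=
    hσ.tendsto_atTop.eventually (Filter.eventually_all.2 fun j => small H (w j))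
  filter_upwards [hcv k w t i (ε / 4) (by linarith), hsm] with n hn hs
  have h1 := rem H (hφ i) (σ n) (fun j => (t j : ℂ)) w
  have h2 := chr H (n := σ n) (fun j => (t j : ℂ)) w hs
  simp only [Complex.ofReal_re] at h2
  rw [dist_eq_norm, ← h2]
  have h3 : ‖(∫ p, (φ i p.1 : ℂ) * ex (lam (σ n)) (u (σ n)) (fun j => (t j : ℂ)) w p ∂(P Ω)) -
      ∫ f : MW, Complex.exp (I * (lin w t f : ℝ)) ∂μ‖ ≤ 1 - (∫ p, φ i p.1 ∂(P Ω)) + ε / 4 := hn
  have h4 : ‖(∫ p, ex (lam (σ n)) (u (σ n)) (fun j => (t j : ℂ)) w p ∂(P Ω)) -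
      ∫ f : MW, Complex.exp (I * (lin w t f : ℝ)) ∂μ‖ ≤
      ‖(∫ p, ex (lam (σ n)) (u (σ n)) (fun j => (t j : ℂ)) w p ∂(P Ω)) -
        (∫ p, (φ i p.1 : ℂ) * ex (lam (σ n)) (u (σ n)) (fun j => (t j : ℂ)) w p ∂(P Ω))‖ +
      ‖(∫ p, (φ i p.1 : ℂ) * ex (lam (σ n)) (u (σ n)) (fun j => (t j : ℂ)) w p ∂(P Ω)) -
      ∫ f : MW, Complex.exp (I * (lin w t f : ℝ)) ∂μ‖ := norm_sub_le_norm_sub_add_norm_sub _ _ _
  rw [norm_sub_rev] at h1
  linarith

end

end Pool.Agent.U433.SG
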